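import Pool.Agent.Y6.H.Stm

/-!
# Project HR, job HR-GAPD: speeds and detuning

The first part is adapted from the files of helper692 (job EP-SPD) and helper929 (job EQ-SPQ).
-/

set_option autoImplicit false

open Set Filter Topology

namespace Pool.Agent.Y693.HR.GAPD

open Pool.Agent.Y6.H
open Pool.Agent.Y6.M (Z3 C3 nsq len Md br Frame cK sgz)
open Pool.Agent.Y6.F (cd ln al kx Xm Ym ML lvM σM mx D0 S_LV S_CODE)

theorem sgz_neg (k : Z3) : sgz (-k) = -sgz k := by
  unfold sgz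
  simp only [Pi.neg_apply, Int.sign_neg, ne_eq, neg_eq_zero]
  split_ifs <;> rfl

theorem sgz_pm {k : Z3} (hk : k ≠ 0) : sgz k = 1 ∨ sgz k = -1 := by
  have hs : ∀ a : ℤ, a ≠ 0 → a.sign = 1 ∨ a.sign = -1 := by
    intro a ha
    rcases lt_or_gt_of_ne ha with h | h
    · exact Or.inr (Int.sign_eq_neg_one_of_neg h)
    · exact Or.inl (Int.sign_eq_one_of_pos h)
  unfold sgz
  split_ifs with h0 h1
  · exact hs _ h0
  · exact hs _ h1
  · apply hs
    intro h2
    apply hk
    push Not at h0 h1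
    funext j
    fin_cases j
    · exact h0
    · exact h1
    · exact h2

theorem br_br (i : Md) : br (br i) = i := Prod.ext (Subtype.ext (neg_neg _)) rfl

theorem sp_br {i : Md} (h : Sp i) : Sp (br i) := by
  obtain ⟨n, h | h | h | h⟩ := h
  · exact ⟨n, Or.inr (Or.inl (congrArg br h))⟩
  · exact ⟨n, Or.inl ((congrArg br h).trans (br_br _))⟩
  · exact ⟨n, Or.inr (Or.inr (Or.inr (congrArg br h)))⟩
  · exact ⟨n, Or.inr (Or.inr (Or.inl ((congrArg br h).trans (br_br _))))⟩

theorem sp_br_iff (i : Md) : Sp (br i) ↔ Sp i :=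
  ⟨fun h => by have := sp_br h; rwa [br_br] at this, sp_br⟩

theorem len_neg (k : Z3) : len (-k) = len k := by
  have h : nsq (-k) = nsq k := by
    unfold nsq
    simp only [Pi.neg_apply, neg_sq]
  unfold len
  rw [h]

theorem ln_br (i : Md) : ln (br i) = ln i := len_neg i.1.1

theorem sgz_br (i : Md) : sgz (br i).1.1 = -sgz i.1.1 := sgz_neg i.1.1

theorem rp_br (i : Md) : rp (br i) = rp i := by
  unfold rp
  rw [sgz_br]
  rcases sgz_pm i.1.2 with h | h
  · rw [h, if_neg (by norm_num), if_pos rfl, br_br]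
  · rw [h, if_pos (by norm_num), if_neg (by norm_num)]

theorem σ_iff (hLV : S_LV) (i : Md) : σM i = 0 ↔ Sp i := by
  obtain ⟨-, l2, l3, -⟩ := hLV
  constructor
  · intro h
    exact l3 i h
  · rintro ⟨n, h | h | h | h⟩
    · rw [h]; exact (l2 n).1
    · rw [h]; exact (l2 n).2.1
    · rw [h]; exact (l2 n).2.2.1
    · rw [h]; exact (l2 n).2.2.2

theorem t_SPH : S_SPH := by
  classical
  intro hLV hCODE ω hω i
  have hiff := σ_iff hLV
  obtain ⟨l1, l2, l3, l4, l5, l6, l7, l8, l9, l10, l11⟩ := hLV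
  obtain ⟨c1, c2, c3, c4, c5, c6⟩ := hCODE
  by_cases hi : σM i = 0
  · rw [hi, mul_zero]
    exact (hω.2 i ((hiff i).1 hi)).symm
  · obtain ⟨hl, -⟩ := l4 i hi
    have hs : σM i = (sgz i.1.1 : ℝ) := by
      unfold σM at hi ⊢
      split_ifs at hi ⊢ with hh
      · exact absurd rfl hi
      · rfl
    rw [hl, hs]
    have hbr : sgz (br i).1.1 = -sgz i.1.1 := sgz_neg i.1.1
    have hex : ∃ j : Md, cd j = cd i ∧ sgz j.1.1 = 1 := by
      rcases sgz_pm i.1.2 with h | h
      · exact ⟨i, rfl, h⟩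
      · exact ⟨br i, c3 i, by rw [hbr, h]; rfl⟩
    have hSQ : SH ω (cd i) = ω hex.choose := by
      unfold SH
      rw [dif_pos hex]
    obtain ⟨hc1, hc2⟩ := hex.choose_spec
    rw [hSQ]
    rcases sgz_pm i.1.2 with h | h
    · rcases c2 i _ hc1.symm with hj | hj
      · rw [hj, h, Int.cast_one, mul_one]
      · exfalso
        rw [hj, hbr, h] at hc2
        omega
    · rcases c2 i _ hc1.symm with hj | hj
      · exfalso
        rw [hj, h] at hc2
        omega
      · rw [hj, hω.1, h]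
        push_cast
        ring

theorem t_ODDX : S_ODDX := by
  classical
  intro δ ω₀ X hω
  refine ⟨fun i => ?_, fun i hi => ?_⟩
  · unfold ωX
    rw [hω.1 i]
    by_cases h : Sp i
    · rw [if_pos ((sp_br_iff i).2 h), if_pos h, add_zero, add_zero]
    · rw [if_neg (fun h' => h ((sp_br_iff i).1 h')), if_neg h, rp_br, ln_br, sgz_br]
      push_cast
      ring
  · unfold ωX
    rw [if_pos hi, hω.2 i hi, add_zero]

theorem npar_snd {k l i : Z3} (h : npar k l) (e : k + l = i) : npar l i := by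
  rintro ⟨h1, h2, h3⟩
  apply h
  rw [← e] at h1 h2 h3
  simp only [Pi.add_apply] at h1 h2 h3
  refine ⟨?_, ?_, ?_⟩ <;> linarith

theorem npar_fst {k l i : Z3} (h : npar k l) (e : k + l = i) : npar k i := by
  rintro ⟨h1, h2, h3⟩
  apply h
  rw [← e] at h1 h2 h3
  simp only [Pi.add_apply] at h1 h2 h3
  refine ⟨?_, ?_, ?_⟩ <;> linarith

theorem t_GAPD : S_GAPD := by
  classical
  intro hLV hCODE hSPH ω hω hG i p hi hp hnp hD
  have hiff := σ_iff hLV
  rw [hSPH hLV hCODE ω hω p.1, hSPH hLV hCODE ω hω p.2, hSPH hLV hCODE ω hω i]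
  obtain ⟨g1, g2, g3⟩ := hG
  have hi' : ¬ Sp i := fun h => hi ((hiff i).2 h)
  unfold D0 at hD ⊢
  by_cases h1 : σM p.1 = 0
  · have z1 : ω p.1 = 0 := hω.2 _ ((hiff _).1 h1)
    by_cases h2 : σM p.2 = 0
    · have z2 : ω p.2 = 0 := hω.2 _ ((hiff _).1 h2)
      rw [if_pos h1, if_pos h2] at hD ⊢
      by_cases h3 : ln p.1 ≤ 4 * ln i ∧ ln p.2 ≤ 4 * ln i
      · rw [if_pos h3, z1, z2, add_zero, zero_sub, abs_neg]
        exact g1 i hi'
      · rw [if_neg h3] at hD
        exact absurd hD (lt_irrefl _)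
    · rw [if_pos h1, if_neg h2, z1, zero_add]
      exact g2 i p.2 hi' (fun h => h2 ((hiff _).2 h)) (npar_snd hnp hp)
  · by_cases h2 : σM p.2 = 0
    · have z2 : ω p.2 = 0 := hω.2 _ ((hiff _).1 h2)
      rw [if_neg h1, if_pos h2, z2, add_zero]
      exact g2 i p.1 hi' (fun h => h1 ((hiff _).2 h)) (npar_fst hnp hp)
    · rw [if_neg h1, if_neg h2] at hD ⊢
      by_cases h3 : 256 * min (ln p.1) (ln p.2) ^ 4 ≤ mx i p ^ 3
      · rw [if_pos h3]
        have h4 := g3 i p.1 p.2 hi' (fun h => h1 ((hiff _).2 h)) (fun h => h2 ((hiff _).2 h)) hp hnp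
        have e : mx i (p.1, p.2) = mx i p := rfl
        rw [e] at h4
        refine le_trans ?_ h4
        have h5 : (0 : ℝ) ≤ mx i p ^ 12 := by
          have e2 : mx i p ^ 12 = (mx i p ^ 6) ^ 2 := by ring
          rw [e2]
          exact sq_nonneg _
        have h6 : (10 : ℝ) ^ 60 / 2 ≤ 10 ^ 60 := by
          have : (0 : ℝ) ≤ 10 ^ 60 := by positivity
          linarith
        exact mul_le_mul_of_nonneg_right h6 h5
      · rw [if_neg h3] at hD
        exact absurd hD (lt_irrefl _)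

end Pool.Agent.Y693.HR.GAPD
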